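import Pool.Agent.E8helper49.PC.Stm
import Pool.Agent.Y667.OG.Field

/-!
# Project PC: the primes above `q` of a field inside `Ω`
-/

set_option autoImplicit false
set_option linter.unusedSectionVars false
set_option linter.style.haveILetI false

namespace Pool.Agent.E8helper41.PC

open NumberField Ideal Finset
open Pool.Agent.E8helper49.PC
open Pool.Agent.Y667.OG (below below_eq card_quot over_ne)

section nf

variable {K : Type} [Field K] [NumberField K]

lemma mem_over {q : ℕ} (hq : q.Prime) (P : Ideal (𝓞 K)) :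
    P ∈ primesOver (span {(q : ℤ)}) (𝓞 K) ↔ P.IsPrime ∧ (q : 𝓞 K) ∈ P := by
  have : Fact q.Prime := ⟨hq⟩
  have hmax : (span {(q : ℤ)}).IsMaximal := Int.ideal_span_isMaximal_of_prime q
  constructor
  · intro h
    refine ⟨h.1, ?_⟩
    have h2 := (Ideal.liesOver_iff P (span {(q : ℤ)})).1 h.2
    have h3 : (q : ℤ) ∈ under ℤ P := by
      rw [← h2]
      exact mem_span_singleton_self _
    rw [under_def, mem_comap] at h3
    simpa using h3
  · rintro ⟨h1, h2⟩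
    refine ⟨h1, ?_⟩
    rw [Ideal.liesOver_iff]
    apply hmax.eq_of_le
    · exact (IsPrime.under ℤ P).ne_top
    · rw [span_singleton_le_iff_mem, under_def, mem_comap]
      simpa using h2

lemma ne_bot_of {q : ℕ} (hq : q.Prime) (P : Ideal (𝓞 K)) (h : (q : 𝓞 K) ∈ P) : P ≠ ⊥ := by
  rintro rfl
  rw [mem_bot] at h
  exact hq.ne_zero (by exact_mod_cast h)

lemma three_not_mem {q : ℕ} (hq : q.Prime) (hq3 : q % 3 = 2) (P : Ideal (𝓞 K)) (hP : P.IsPrime)
    (h : (q : 𝓞 K) ∈ P) : (3 : 𝓞 K) ∉ P := by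
  intro h3
  have hc : IsCoprime (q : ℤ) (3 : ℤ) := by
    have : Nat.Coprime q 3 := by
      rw [Nat.coprime_primes hq Nat.prime_three]
      rintro rfl
      simp at hq3
    exact_mod_cast Nat.isCoprime_iff_coprime.2 this
  obtain ⟨a, b, hab⟩ := hc
  apply hP.ne_top
  rw [eq_top_iff_one]
  have : (1 : 𝓞 K) = (a : 𝓞 K) * (q : 𝓞 K) + (b : 𝓞 K) * 3 := by
    have := congrArg (Int.cast : ℤ → 𝓞 K) hab
    push_cast at this
    exact this.symm
  rw [this]
  exact P.add_mem (P.mul_mem_left _ h) (P.mul_mem_left _ h3)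

/-- a root of `x² + x + 1` in the ring of integers -/
lemma exists_int {x : K} (hx : x ^ 2 + x + 1 = 0) : ∃ w : 𝓞 K, (w : K) = x ∧ w ^ 2 + w + 1 = 0 := by
  have hint : IsIntegral ℤ x := by
    refine ⟨Polynomial.X ^ 2 + Polynomial.X + 1, ?_, ?_⟩
    · monicity!
    · simp [hx]
  refine ⟨⟨x, hint⟩, rfl, ?_⟩
  apply RingOfIntegers.ext
  simpa using hx

lemma card_mod_three {x : K} (hx : x ^ 2 + x + 1 = 0) (P : Ideal (𝓞 K)) (hP : P.IsPrime)
    (h0 : P ≠ ⊥) (h3 : (3 : 𝓞 K) ∉ P) : Nat.card (𝓞 K ⧸ P) % 3 = 1 := by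
  obtain ⟨w, -, hw⟩ := exists_int hx
  have hmax : P.IsMaximal := hP.isMaximal h0
  letI : Field (𝓞 K ⧸ P) := Ideal.Quotient.field P
  haveI : Finite (𝓞 K ⧸ P) := Ideal.finiteQuotientOfFreeOfNeBot P h0
  letI : Fintype (𝓞 K ⧸ P) := Fintype.ofFinite _
  set v : 𝓞 K ⧸ P := Ideal.Quotient.mk P w with hv
  have hv1 : v ^ 2 + v + 1 = 0 := by
    have := congrArg (Ideal.Quotient.mk P) hw
    simpa using this
  have hne : v ≠ 1 := by
    intro h
    apply h3
    rw [← Ideal.Quotient.eq_zero_iff_mem]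
    rw [h] at hv1
    have : (Ideal.Quotient.mk P) 3 = 1 ^ 2 + 1 + 1 := by
      rw [map_ofNat]
      norm_num
    rw [this]
    exact hv1
  have hv3 : v ^ 3 = 1 := by linear_combination (v - 1) * hv1
  have hv0 : v ≠ 0 := by
    intro h
    rw [h] at hv3
    norm_num at hv3
  have hord : orderOf v = 3 := orderOf_eq_prime hv3 hne
  have hd : 3 ∣ Fintype.card (𝓞 K ⧸ P) - 1 := by
    rw [← hord]
    exact orderOf_dvd_of_pow_eq_one (FiniteField.pow_card_sub_one_eq_one v hv0)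
  rw [Nat.card_eq_fintype_card]
  have h1 : 1 < Fintype.card (𝓞 K ⧸ P) := Fintype.one_lt_card
  omega

end nf

lemma pow_mod {q f : ℕ} (hq : q % 3 = 2) : q ^ f % 3 = 2 ↔ Odd f := by
  rw [Nat.pow_mod, hq]
  rcases Nat.even_or_odd' f with ⟨k, hk | hk⟩
  · rw [hk, pow_mul, Nat.pow_mod]
    constructor
    · intro h
      norm_num at h
    · intro h
      exact absurd h (by rw [Nat.not_odd_iff_even]; exact even_two_mul k)
  · rw [hk, pow_succ, pow_mul, Nat.mul_mod, Nat.pow_mod]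
    constructor
    · intro _
      exact ⟨k, rfl⟩
    · intro _
      norm_num

/-- the ramification indices above `q` are odd -/
lemma odd_ram (hGRP : S_GRP) (M : Finset ℕ) (Ω : Type) [Field Ω] [NumberField Ω]
    (hM : ∀ l ∈ M, 0 < l) (hC : Clo M Ω) (q : ℕ) (hq : q.Prime) (hq3 : q % 3 = 2)
    (Q : Ideal (𝓞 Ω)) (hQ : Q ∈ primesOver (span {(q : ℤ)}) (𝓞 Ω)) : Odd (Q.ramificationIdx ℤ) := by
  classical
  obtain ⟨hgal, hG⟩ := hGRP M Ω hM hC
  have hC' := hC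
  obtain ⟨ω, -, hω, -, -⟩ := hC'
  obtain ⟨-, hG3, -⟩ := hG ω hω
  have : Fact q.Prime := ⟨hq⟩
  have hmax : (span {(q : ℤ)}).IsMaximal := Int.ideal_span_isMaximal_of_prime q
  have hprime : (span {(q : ℤ)}).IsPrime := hmax.isPrime
  have h1 : Q.IsPrime := hQ.1
  have h2 : Q.LiesOver (span {(q : ℤ)}) := hQ.2
  have hmem := (mem_over hq Q).1 hQ
  have h3 := three_not_mem hq hq3 Q h1 hmem.2
  rw [← ramificationIdxIn_eq_ramificationIdx (span {(q : ℤ)}) Q Gal(Ω/ℚ),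
    ← card_inertia_eq_ramificationIdxIn (G := Gal(Ω/ℚ)) (span {(q : ℤ)}) Q]
  by_contra hodd
  rw [Nat.not_odd_iff_even, even_iff_two_dvd] at hodd
  have : Fact (Nat.Prime 2) := ⟨Nat.prime_two⟩
  obtain ⟨σ, hσ⟩ := exists_prime_orderOf_dvd_card' 2 hodd
  obtain ⟨w, hwω, hw⟩ := exists_int hω
  have hσ1 : (σ : Gal(Ω/ℚ)) • w - w ∈ Q := σ.2 w
  have hfix : (σ : Gal(Ω/ℚ)) ω = ω := by
    by_contra hne
    have e1 : ((σ : Gal(Ω/ℚ)) ω) ^ 2 + (σ : Gal(Ω/ℚ)) ω + 1 = 0 := by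
      have := congrArg (σ : Gal(Ω/ℚ)) hω
      simpa using this
    have e2 : ((σ : Gal(Ω/ℚ)) ω - ω) * ((σ : Gal(Ω/ℚ)) ω + ω + 1) = 0 := by
      linear_combination e1 - hω
    have e3 : (σ : Gal(Ω/ℚ)) ω + ω + 1 = 0 := by
      rcases mul_eq_zero.1 e2 with h | h
      · exact absurd (sub_eq_zero.1 h) hne
      · exact h
    have e4 : (((σ : Gal(Ω/ℚ)) • w : 𝓞 Ω) : Ω) = (σ : Gal(Ω/ℚ)) ω := by
      rw [← hwω]
      rfl
    have e5 : (σ : Gal(Ω/ℚ)) • w = -1 - w := by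
      apply RingOfIntegers.ext
      rw [e4]
      have e7 : (algebraMap (𝓞 Ω) Ω) w = ω := hwω
      have e8 : (algebraMap (𝓞 Ω) Ω) (-1 - w) = -1 - ω := by rw [map_sub, map_neg, map_one, e7]
      have e9 : (σ : Gal(Ω/ℚ)) ω = -1 - ω := by linear_combination e3
      exact e9.trans e8.symm
    rw [e5] at hσ1
    apply h3
    have e6 : (3 : 𝓞 Ω) = (-1 - w - w) * (1 + 2 * w) := by linear_combination 4 * hw
    rw [e6]
    exact Q.mul_mem_right _ hσ1
  have h33 := hG3 (σ : Gal(Ω/ℚ)) hfix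
  have hs3 : σ ^ 3 = 1 := by
    apply Subtype.ext
    rw [Subgroup.coe_pow, Subgroup.coe_one, pow_succ, pow_two]
    exact h33
  have hd := orderOf_dvd_of_pow_eq_one hs3
  rw [hσ] at hd
  norm_num at hd

theorem t_CEE : S_GRP → S_DEG → S_CEE := by
  classical
  intro hGRP hDEG M Ω _ _ hM hC F _ _ hF q hq hq3
  refine ⟨?_, ?_⟩
  · rintro ⟨x, hx⟩
    unfold nC
    rw [Nat.card_eq_zero]
    left
    constructor
    rintro ⟨P, h1, h2, h3⟩
    have := card_mod_three hx P h1 (ne_bot_of hq P h2) (three_not_mem hq hq3 P h1 h2)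
    omega
  · intro hx
    have hdeg := hDEG M Ω hM hC F hF hx
    obtain ⟨i⟩ := hF
    letI : Algebra F Ω := i.toAlgebra
    have hM0 : ∀ l ∈ M, 0 < l := fun l hl => (hM l hl).1.pos
    have hfact : Fact q.Prime := ⟨hq⟩
    have hmax : (span {(q : ℤ)}).IsMaximal := Int.ideal_span_isMaximal_of_prime q
    have hprime : (span {(q : ℤ)}).IsPrime := hmax.isPrime
    have hodd : ∀ P ∈ primesOver (span {(q : ℤ)}) (𝓞 F), Odd (P.ramificationIdx ℤ) := by
      intro P hP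
      have hP1 : P.IsPrime := hP.1
      have hPm : P.IsMaximal := hP1.isMaximal (over_ne hq hP)
      obtain ⟨Q, hQm, hQo⟩ := exists_maximal_ideal_liesOver_of_isIntegral (S := 𝓞 Ω) P
      have hPo : P.LiesOver (span {(q : ℤ)}) := hP.2
      have hQ : Q ∈ primesOver (span {(q : ℤ)}) (𝓞 Ω) :=
        ⟨hQm.isPrime, LiesOver.trans Q P (span {(q : ℤ)})⟩
      have h1 := odd_ram hGRP M Ω hM0 hC q hq hq3 Q hQ
      exact Odd.of_dvd_nat h1 (ramificationIdx_below_dvd (R := ℤ) P Q)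
    haveI : Fintype (primesOver (span {(q : ℤ)}) (𝓞 F)) :=
      (Algebra.QuasiFinite.finite_primesOver (span {(q : ℤ)})).fintype
    have hsum := sum_ramification_inertia_eq_finrank (S := 𝓞 F) (span {(q : ℤ)})
    rw [RingOfIntegers.rank] at hsum
    rw [← hsum, Finset.odd_sum_iff_odd_card_odd] at hdeg
    convert hdeg using 1
    unfold nC
    rw [← Fintype.card_subtype, ← Nat.card_eq_fintype_card]
    apply Nat.card_congr
    have key : ∀ P ∈ primesOver (span {(q : ℤ)}) (𝓞 F),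
        (Nat.card (𝓞 F ⧸ P) % 3 = 2 ↔ Odd (P.ramificationIdx ℤ * P.inertiaDeg ℤ)) := by
      intro P hP
      rw [card_quot P hP.1 (over_ne hq hP), below_eq hq hP, pow_mod hq3, Nat.odd_mul]
      exact ⟨fun h => ⟨hodd P hP, h⟩, fun h => h.2⟩
    exact {
      toFun := fun P => ⟨⟨P.1, (mem_over hq P.1).2 ⟨P.2.1, P.2.2.1⟩⟩,
        (key P.1 ((mem_over hq P.1).2 ⟨P.2.1, P.2.2.1⟩)).1 P.2.2.2⟩
      invFun := fun P => ⟨P.1.1, ((mem_over hq P.1.1).1 P.1.2).1, ((mem_over hq P.1.1).1 P.1.2).2,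
        (key P.1.1 P.1.2).2 P.2⟩
      left_inv := fun P => rfl
      right_inv := fun P => rfl }

end Pool.Agent.E8helper41.PC
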